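import Pool.Agent.N70.EQ.Stm
import Pool.Agent.N70.EP.Se

/-!
Assembly of KD (part EQ/KDO): the specialization of a norm.
-/

set_option autoImplicit false

namespace Pool.Agent.N279.EQ

open Polynomial Pool.Agent.N70.AW
open Pool.Agent.N70.EP (Dt0)
open Pool.Agent.N70.EQ (DivF St_kdOf)
open Pool.Agent.N70.AW.EPc (Sy ev_pz row dual1' AAne)

section gen

variable {K J : Type} [Field K] [Fintype J] (κ : J → K[X]) {m : ℕ}
  (M : J → J → Matrix (Fin m) (Fin m) K[X])
variable {E : Type} [CommRing E] [Algebra K E]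

theorem PMd {k d : ℕ} (h : ∀ j, (κ j).natDegree ≤ k)
    (hM : ∀ i j l l', (M i j l l').natDegree ≤ d) (hd : d ≤ 2 * k) (c : J → E) (T : E) :
    (∀ l l', (PM κ M c T l l').natDegree ≤ 2 * k + 1) ∧
    ∀ l l', (PM κ M c T l l').coeff (2 * k + 1) =
      if l = l' then -(AA κ c).coeff (2 * k + 1) else 0 := by
  have h1 : ∀ l l', (MM M c l l').natDegree ≤ 2 * k := fun l l' => (MM_deg M hM c l l').trans hd
  have hA := AA_deg κ h c
  constructor
  · intro l l'
    rw [PM_apply]
    refine (natDegree_sub_le _ _).trans (max_le ?_ ((h1 l l').trans (by omega)))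
    by_cases hl : l = l'
    · subst hl
      rw [Matrix.one_apply_eq, mul_one]
      refine (natDegree_sub_le _ _).trans (max_le ?_ hA)
      rw [natDegree_C]
      omega
    · rw [Matrix.one_apply_ne hl, mul_zero, natDegree_zero]
      omega
  · intro l l'
    rw [PM_apply, coeff_sub, coeff_eq_zero_of_natDegree_lt
      (lt_of_le_of_lt (h1 l l') (Nat.lt_succ_self _)), sub_zero]
    by_cases hl : l = l'
    · subst hl
      rw [Matrix.one_apply_eq, if_pos rfl, mul_one, coeff_sub, coeff_C_succ, zero_sub]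
    · rw [Matrix.one_apply_ne hl, if_neg hl, mul_zero, coeff_zero]

end gen

theorem DivF_map {R R' : Type} [CommRing R] [CommRing R'] (ψ : R →+* R') {m b : ℕ}
    {PP F : Matrix (Fin m) (Fin m) R[X]} {a : R}
    {Ft : Matrix (Fin b × Fin m) (Fin b × Fin m) R} (h : DivF m b PP F a Ft) :
    DivF m b (PP.map (Polynomial.map ψ)) (F.map (Polynomial.map ψ)) (ψ a) (Ft.map ψ) := by
  obtain ⟨q, hq⟩ := h
  refine ⟨fun x k => (q x k).map ψ, fun x l' => ?_⟩
  have h1 := congrArg (Polynomial.map ψ) (hq x l')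
  rw [Polynomial.map_mul, Polynomial.map_mul, Polynomial.map_pow, map_X, map_C,
    Polynomial.map_add, Polynomial.map_sum, Polynomial.map_sum] at h1
  simp only [Polynomial.map_mul, Polynomial.map_pow, map_X, map_C] at h1
  exact h1

/-- The matrix part vanishes. -/
theorem MM_zero {K ι E : Type} [Field K] [Fintype ι] {m : ℕ}
    (M : Option ι → Option ι → Matrix (Fin m) (Fin m) K[X]) [CommRing E] [Algebra K E]
    (hM : ∀ i j : ι, M (some i) (some j) = 0) (u : Option ι → E) (hu : u none = 0) :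
    MM M u = 0 := by
  funext l l'
  unfold MM
  refine Finset.sum_eq_zero fun i _ => Finset.sum_eq_zero fun j _ => ?_
  rcases i with _ | i
  · rw [hu, zero_mul, C_0, zero_mul]
  · rcases j with _ | j
    · rw [hu, mul_zero, C_0, zero_mul]
    · rw [hM, Matrix.zero_apply, Polynomial.map_zero, mul_zero]

/-- the determinant and the map -/
theorem det_map_map {R R' : Type} [CommRing R] [CommRing R'] (ψ : R →+* R') {m : ℕ}
    (F : Matrix (Fin m) (Fin m) R[X]) : (F.map (Polynomial.map ψ)).det = F.det.map ψ := by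
  have h1 := (Polynomial.mapRingHom ψ).map_det F
  rw [coe_mapRingHom] at h1
  exact h1.symm

theorem t_kdo : St_kdOf := by
  intro hpd hha hhb hpw hcu hfx hmu K Z N ι _ _ _ _ _ _ _ _ _ _ _ _ P m k d κ v x e es S M L D
    hm k₀ _ _ _ _ _ η hη r φ Y f F Θ dd hf hF hdd hΘ hσ
  classical
  have : CharZero k₀ := charZero_of_injective_algebraMap (algebraMap K k₀).injective
  let R := MvPolynomial (Ix ι) k₀
  let cR : Option ι → R := fun i => MvPolynomial.X (Sum.inl i)
  let TR : R := MvPolynomial.X (Sum.inr ())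
  let PP : Matrix (Fin m) (Fin m) R[X] := PM κ M cR TR
  let aR : R := -(AA κ cR).coeff (2 * k + 1)
  let FR : Matrix (Fin m) (Fin m) R[X] := F.map (Polynomial.map (algebraMap K R))
  obtain ⟨hP1, hP2⟩ := PMd κ M D.kdeg D.deg D.dk cR TR
  obtain ⟨E₀, hE₀⟩ := hpd R m (2 * k + 1) PP FR aR hP1 hP2
  obtain ⟨Ft, hFt⟩ := hE₀ (dd * E₀) (Nat.le_mul_of_pos_left _ hdd)
  -- the images under algebra maps
  have hmapD : ∀ (E' : Type) [CommRing E'] [Algebra K E'] (ψ : R →ₐ[K] E'),
      DivF m (2 * k + 1) (PM κ M (fun i => ψ (cR i)) (ψ TR)) (F.map (Polynomial.map (algebraMap K E')))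
        ((ψ aR) ^ (dd * E₀)) (Ft.map ψ) := by
    intro E' _ _ ψ
    have h1 := DivF_map (ψ : R →+* E') hFt
    have h2 : PP.map (Polynomial.map (ψ : R →+* E')) = PM κ M (fun i => ψ (cR i)) (ψ TR) := by
      funext l l'
      exact PM_map κ M ψ cR TR l l'
    have h3 : FR.map (Polynomial.map (ψ : R →+* E')) = F.map (Polynomial.map (algebraMap K E')) := by
      funext l l'
      change ((F l l').map (algebraMap K R)).map (ψ : R →+* E') = _
      rw [Polynomial.map_map]
      congr 1
      exact ψ.comp_algebraMap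
    have h4 : (ψ : R →+* E') (aR ^ (dd * E₀)) = (ψ aR) ^ (dd * E₀) := map_pow ψ _ _
    rw [h2, h3, h4] at h1
    exact h1
  have hmapa : ∀ (E' : Type) [CommRing E'] [Algebra K E'] (ψ : R →ₐ[K] E'),
      ψ aR = -(AA κ (fun i => ψ (cR i))).coeff (2 * k + 1) := by
    intro E' _ _ ψ
    rw [← AA_map κ ψ cR, coeff_map]
    exact map_neg ψ _
  -- the generic point
  let ψη : R →ₐ[K] N := (MvPolynomial.aeval η : R →ₐ[k₀] N).restrictScalars K
  have hψη : ∀ p : R, ψη p = MvPolynomial.aeval η p := fun _ => rfl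
  have hc1 : (fun i => ψη (cR i)) = fun i => η (Sum.inl i) := by
    funext i
    exact MvPolynomial.aeval_X η _
  have hT1 : ψη TR = η (Sum.inr ()) := MvPolynomial.aeval_X η _
  have ha1 := hmapa N ψη
  have hD1 := hmapD N ψη
  rw [hc1] at ha1
  rw [hc1, hT1] at hD1
  have hane : ψη aR ≠ 0 := by
    rw [ha1]
    exact neg_ne_zero.2 (AAne D η hη)
  obtain ⟨hQ1, hQ2⟩ := PMd κ M D.kdeg D.deg D.dk (fun i => η (Sum.inl i)) (η (Sum.inr ()))
  have hdet := hha N m (2 * k + 1) (PM κ M (fun i => η (Sum.inl i)) (η (Sum.inr ())))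
    (F.map (Polynomial.map (algebraMap K N))) (ψη aR) (dd * E₀) (Ft.map ψη) r
    (fun i l => φ i (e l)) (fun i => φ i f) hane hQ1 (by rw [ha1]; exact hQ2) hD1 Y.inj
    (by
      intro i h0
      have h1 := dual1' D (φ i)
      have h2 : ∀ l, φ i (e l) = 0 := fun l => congrFun h0 l
      simp only [h2, zero_mul, Finset.sum_const_zero] at h1
      exact zero_ne_one h1)
    (by
      intro i l'
      have h1 := row D (φ i) (fun i => η (Sum.inl i)) (η (Sum.inr ())) l'
      have h2 := (Y.lp i).hT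
      rw [Y.val] at h1
      rw [h1]
      have h3 : Pool.Agent.N70.AW.EPc.FF κ x (fun i => η (Sum.inl i)) (φ i) = η (Sum.inr ()) := h2
      rw [h3, sub_self, zero_mul])
    (by
      intro i l'
      have h1 := congrArg (φ i) (hf l')
      rw [map_mul, map_sum] at h1
      rw [h1]
      refine Finset.sum_congr rfl fun l _ => ?_
      rw [map_mul, ev_pz, Y.val, mul_comm]
      rfl)
  rw [← hΘ] at hdet
  have hΘm := hfx k₀ N (Ix ι) η hη Θ hσ
  set t : N := (ψη aR) ^ (E₀ * (m * (2 * k + 1))) * Θ with ht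
  have htd : t ^ dd = MvPolynomial.aeval η Ft.det := by
    have h1 : MvPolynomial.aeval η Ft.det = (Ft.map ψη).det := by
      have := (ψη : R →+* N).map_det Ft
      exact this
    rw [h1, hdet, ht, mul_pow, ← pow_mul]
    congr 2
    ring
  have hmem : t ∈ IntermediateField.adjoin k₀ (Set.range η) := by
    refine mul_mem (pow_mem ?_ _) hΘm
    rw [hψη]
    have h1 : MvPolynomial.aeval η aR ∈ Algebra.adjoin k₀ (Set.range η) := by
      rw [Algebra.adjoin_range_eq_range_aeval]
      exact ⟨aR, rfl⟩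
    exact IntermediateField.algebra_adjoin_le_adjoin k₀ _ h1
  obtain ⟨t', ht'⟩ := hpw k₀ N (Ix ι) η hη.1 t dd Ft.det hdd hmem htd
  -- the special point
  let G : k₀[X] := F.det.map (algebraMap K k₀)
  have hG : G ≠ 0 := (Polynomial.map_ne_zero_iff (algebraMap K k₀).injective).2 hF
  obtain ⟨u, hu0, hua, hui⟩ := hcu K k₀ ι κ k ⟨D.lin, fun i => D.kdeg _, D.card⟩ D.kdeg D.ktop
    G.roots.toFinset
  have hM0 : ∀ i j : ι, M (some i) (some j) = 0 := by
    intro i j
    rw [D.fac, D.zeroM, zero_mul]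
  have hMM := MM_zero M hM0 u hu0
  let au : k₀ := -(AA κ u).coeff (2 * k + 1)
  have hau : au ≠ 0 := neg_ne_zero.2 hua
  let A : k₀ → k₀ := fun c => (AA κ u).eval c
  let ρ : R →ₐ[k₀] k₀[X] := MvPolynomial.aeval (Sum.elim (fun j => C (u j)) (fun _ => X))
  let c₀ : k₀ := au ^ (dd * E₀ * (m * (2 * k + 1))) * G.leadingCoeff ^ (2 * k + 1) *
    ((-1) ^ (2 * k + 1) / au) ^ (Multiset.card G.roots)
  have hc₀ : c₀ ≠ 0 := by
    refine mul_ne_zero (mul_ne_zero (pow_ne_zero _ hau) (pow_ne_zero _ ?_)) (pow_ne_zero _ ?_)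
    · exact leadingCoeff_ne_zero.2 hG
    · exact div_ne_zero (pow_ne_zero _ (neg_ne_zero.2 one_ne_zero)) hau
  have hρ : ρ Ft.det = C c₀ * (G.roots.map fun c => X - C (A c)).prod := by
    refine Polynomial.funext fun τ => ?_
    let ρτ : R →ₐ[k₀] k₀ := MvPolynomial.aeval (Sum.elim u (fun _ => τ))
    let ρτK : R →ₐ[K] k₀ := ρτ.restrictScalars K
    have e1 : ∀ p : R, (ρ p).eval τ = ρτ p := by
      intro p
      have h1 : (Polynomial.aeval τ : k₀[X] →ₐ[k₀] k₀).comp ρ = ρτ := by
        apply MvPolynomial.algHom_ext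
        intro i
        rcases i with j | j
        · simp [ρ, ρτ]
        · simp [ρ, ρτ]
      rw [← h1, AlgHom.comp_apply, Polynomial.coe_aeval_eq_eval]
    have hc2 : (fun i => ρτK (cR i)) = u := by
      funext i
      exact MvPolynomial.aeval_X _ _
    have hT2 : ρτK TR = τ := MvPolynomial.aeval_X _ _
    have ha2 := hmapa k₀ ρτK
    have hD2 := hmapD k₀ ρτK
    rw [hc2] at ha2
    rw [hc2, hT2, ha2] at hD2
    have hgc : (C τ - AA κ u : k₀[X]).coeff (2 * k + 1) = au := by
      rw [coeff_sub, coeff_C_succ, zero_sub]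
    have hgd : (C τ - AA κ u : k₀[X]).natDegree = (2 * k + 1) := by
      refine le_antisymm ?_ (le_natDegree_of_ne_zero (by rw [hgc]; exact hau))
      refine (natDegree_sub_le _ _).trans (max_le ?_ (AA_deg κ D.kdeg u))
      rw [natDegree_C]
      omega
    have hdet2 := hhb k₀ m (2 * k + 1) (PM κ M u τ) (F.map (Polynomial.map (algebraMap K k₀)))
      (C τ - AA κ u) au (dd * E₀) (Ft.map ρτK) (by omega) hau
      (by
        intro l l'
        rw [PM_apply, hMM]
        by_cases hl : l = l'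
        · subst hl
          rw [Matrix.one_apply_eq, if_pos rfl, mul_one, Matrix.zero_apply, sub_zero]
        · rw [Matrix.one_apply_ne hl, if_neg hl, mul_zero, Matrix.zero_apply, sub_zero])
      hgd (by rw [leadingCoeff, hgd, hgc]) hD2
    have e2 : (F.map (Polynomial.map (algebraMap K k₀))).det = G := det_map_map _ F
    rw [e2] at hdet2
    have e3 : ρτ Ft.det = (Ft.map ρτK).det := by
      have := (ρτ : R →+* k₀).map_det Ft
      exact this
    rw [e1, e3, hdet2, eval_mul, eval_C, eval_multiset_prod, Multiset.map_map]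
    have e4 : (G.roots.map fun c => (-1 : k₀) ^ (2 * k + 1) * ((C τ - AA κ u : k₀[X]).eval c / au)) =
        G.roots.map fun c => ((-1 : k₀) ^ (2 * k + 1) / au) * (τ - A c) := by
      refine Multiset.map_congr rfl fun c _ => ?_
      rw [eval_sub, eval_C]
      ring
    have e5 : (G.roots.map (Polynomial.eval τ ∘ fun c => X - C (A c))) =
        G.roots.map fun c => τ - A c := by
      refine Multiset.map_congr rfl fun c _ => ?_
      simp
    rw [e4, e5, Multiset.prod_map_mul, Multiset.map_const', Multiset.prod_replicate]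
    ring
  obtain ⟨h, hh1, hh2⟩ := hmu k₀ G A (ρ t') c₀ dd hG hc₀ hdd
    (fun c hc c' hc' h => hui c (Multiset.mem_toFinset.2 hc) c' (Multiset.mem_toFinset.2 hc') h)
    (by rw [← map_pow, ht', hρ])
  refine ⟨h, hh1, ?_⟩
  have e6 : G.leadingCoeff = algebraMap K k₀ F.det.leadingCoeff :=
    leadingCoeff_map (algebraMap K k₀)
  rw [← e6]
  exact hh2

end Pool.Agent.N279.EQ
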